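import Pool.Agent.X223.CA.Main

/-!
Negative answer to Q1 of MP_2fbd40_lc: for `n ≥ 3` no first-order formula of the language of
contact algebras defines the `n`-ary contact, not even for nonempty spaces in which every clan is
given by a point.
-/

set_option autoImplicit false

namespace Pool.Agent.Results.MP_2fbd40_lc.NotDefinable

open Pool.Agent.X223.CA

/-- For every `n ≥ 3` and every first-order formula `φ(x₁, …, xₙ)` of the language of contact
algebras there is a nonempty topological space, in which every clan of the contact algebra of
regular closed sets has a common point, and there are regular closed sets `a₁, …, aₙ` for which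
the truth of `φ(a₁, …, aₙ)` does not coincide with `a₁ ∩ ⋯ ∩ aₙ ≠ ∅`. -/
theorem result : ∀ n : ℕ, 3 ≤ n → ∀ φ : caLang.Formula (Fin n),
    ∃ (X : Type) (_ : TopologicalSpace X), Nonempty X ∧ RealizesClans X ∧
      ∃ a : Fin n → RC X, ¬ (φ.Realize a ↔ NContact a) := fun _ hn φ => main hn φ

end Pool.Agent.Results.MP_2fbd40_lc.NotDefinable
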